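import Pool.Agent.Q23.TW.Sign
import Pool.Agent.Q23.CN.Cor

/-!
# The argument of the quadratic residue product at the twelfth roots of unity

The argument is computed from `x - y = (xy)^{1/2} 2 i sin(...)` on the unit circle and from the sum of the
quadratic residues, that is (for `p = 3 mod 4`) from Dirichlet's class number formula.  For
`p = 1 mod 8` one needs that the class number of `ℚ(√-p)` is a multiple of four, which is proved
with an explicit ideal class of order four.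
-/

set_option autoImplicit false

open Finset Complex

namespace Pool.Agent.Results.MP_de9ce4_nt.SignsProved

/-- `S_p(x)`, the product of `x - exp(2 π i k^2 / p)` over `1 ≤ k ≤ (p - 1) / 2` -/
noncomputable def S (p : ℕ) (x : ℂ) : ℂ :=
  ∏ k ∈ Finset.Icc 1 ((p - 1) / 2), (x - exp (2 * (Real.pi : ℂ) * I * (k : ℂ) ^ 2 / p))

/-- `N_p`, the number of the quadratic residues `k` with `1 ≤ k < p / 12` -/
def N (p : ℕ) [Fact p.Prime] : ℕ :=
  ((Finset.range p).filter (fun k => 0 < k ∧ 12 * k < p ∧ legendreSym p (k : ℤ) = 1)).card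

/-- `T_p(ε)`, with the class number `h` as an argument -/
noncomputable def T (p : ℕ) [Fact p.Prime] (h : ℕ) (ε : ℤ) : ℂ :=
  (-1) ^ (h / 2 + N p) * exp (2 * (Real.pi : ℂ) * I * ε * (p - 1) / 48) *
    S p (exp (2 * (Real.pi : ℂ) * I * ε / 12))

variable {p : ℕ} [Fact p.Prime]

lemma N_eq : ((Pool.Agent.Q23.SP.QR p).filter (fun r => 12 * r.val < p)).card = N p := by
  apply card_bij (fun r _ => r.val)
  · intro r hr
    rw [mem_filter, Pool.Agent.Q23.SP.mem_QR] at hr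
    rw [mem_filter, mem_range]
    refine ⟨ZMod.val_lt r, ?_, hr.2, ?_⟩
    · rw [Nat.pos_iff_ne_zero, Ne, ZMod.val_eq_zero]
      rintro rfl
      rw [quadraticChar_zero] at hr
      exact absurd hr.1 (by norm_num)
    · rw [legendreSym]
      push_cast
      rw [ZMod.natCast_zmod_val]
      exact hr.1
  · intro a _ b _ h
    exact ZMod.val_injective p h
  · intro k hk
    rw [mem_filter, mem_range] at hk
    refine ⟨(k : ZMod p), ?_, ZMod.val_natCast_of_lt hk.1⟩
    rw [mem_filter, Pool.Agent.Q23.SP.mem_QR, ZMod.val_natCast_of_lt hk.1]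
    refine ⟨?_, hk.2.2.1⟩
    have := hk.2.2.2
    rw [legendreSym] at this
    push_cast at this
    exact this

lemma N_neg_one (h4 : p % 4 = 1) :
    ((Pool.Agent.Q23.SP.QR p).filter (fun r => 11 * p < 12 * r.val)).card = N p := by
  rw [← N_eq]
  apply card_bij (fun r _ => -r)
  · intro r hr
    rw [mem_filter] at hr ⊢
    haveI : NeZero r := ⟨Pool.Agent.Q23.SP.ne_of_mem_QR hr.1⟩
    refine ⟨?_, ?_⟩
    · rw [Pool.Agent.Q23.SP.mem_QR, Pool.Agent.Q23.SP.char_neg h4]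
      exact Pool.Agent.Q23.SP.mem_QR.1 hr.1
    · rw [ZMod.val_neg_of_ne_zero]
      have := ZMod.val_lt r
      omega
  · intro a _ b _ h
    exact neg_injective h
  · intro r hr
    rw [mem_filter] at hr
    haveI : NeZero r := ⟨Pool.Agent.Q23.SP.ne_of_mem_QR hr.1⟩
    refine ⟨-r, ?_, neg_neg r⟩
    rw [mem_filter]
    refine ⟨?_, ?_⟩
    · rw [Pool.Agent.Q23.SP.mem_QR, Pool.Agent.Q23.SP.char_neg h4]
      exact Pool.Agent.Q23.SP.mem_QR.1 hr.1
    · rw [ZMod.val_neg_of_ne_zero]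
      have := ZMod.val_lt r
      omega

lemma N_neg_three (h4 : p % 4 = 3) :
    ((Pool.Agent.Q23.SP.QR p).filter (fun r => 11 * p < 12 * r.val)).card + N p = (p - 1) / 12 := by
  have hm1 : quadraticChar (ZMod p) (-1) = -1 := by
    rw [quadraticChar_neg_one_iff_not_isSquare, ZMod.exists_sq_eq_neg_one_iff]
    omega
  have hneg : ∀ a : ZMod p, quadraticChar (ZMod p) (-a) = - quadraticChar (ZMod p) a := by
    intro a
    rw [← neg_one_mul, map_mul, hm1]; ring
  have h1 : ((Pool.Agent.Q23.SP.QR p).filter (fun r => 11 * p < 12 * r.val)).card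
      = ((Finset.range p).filter (fun k => 0 < k ∧ 12 * k < p ∧ legendreSym p (k : ℤ) = -1)).card := by
    apply card_bij (fun r _ => (-r).val)
    · intro r hr
      rw [mem_filter] at hr
      haveI : NeZero r := ⟨Pool.Agent.Q23.SP.ne_of_mem_QR hr.1⟩
      have hlt := ZMod.val_lt r
      rw [mem_filter, mem_range]
      refine ⟨ZMod.val_lt _, ?_, ?_, ?_⟩
      · rw [ZMod.val_neg_of_ne_zero]; omega
      · rw [ZMod.val_neg_of_ne_zero]; omega
      · rw [legendreSym]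
        push_cast
        rw [ZMod.natCast_zmod_val, hneg, Pool.Agent.Q23.SP.mem_QR.1 hr.1]
    · intro a _ b _ h
      exact neg_injective (ZMod.val_injective p h)
    · intro k hk
      rw [mem_filter, mem_range] at hk
      have hk0 : ((k : ZMod p)) ≠ 0 := by
        rw [Ne, ZMod.natCast_eq_zero_iff]
        intro h
        have := Nat.le_of_dvd hk.2.1 h
        omega
      haveI : NeZero (k : ZMod p) := ⟨hk0⟩
      refine ⟨-(k : ZMod p), ?_, ?_⟩
      · rw [mem_filter, ZMod.val_neg_of_ne_zero, ZMod.val_natCast_of_lt hk.1,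
          Pool.Agent.Q23.SP.mem_QR, hneg]
        refine ⟨?_, by omega⟩
        have := hk.2.2.2
        rw [legendreSym] at this
        push_cast at this
        rw [this]; norm_num
      · rw [neg_neg, ZMod.val_natCast_of_lt hk.1]
  rw [h1, N, ← card_union_of_disjoint]
  · have h2 : (Finset.range p).filter (fun k => 0 < k ∧ 12 * k < p ∧ legendreSym p (k : ℤ) = -1) ∪
        (Finset.range p).filter (fun k => 0 < k ∧ 12 * k < p ∧ legendreSym p (k : ℤ) = 1)
        = Finset.Icc 1 ((p - 1) / 12) := by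
      ext k
      simp only [mem_union, mem_filter, mem_range, mem_Icc]
      constructor
      · rintro (⟨_, h2, h3, _⟩ | ⟨_, h2, h3, _⟩) <;> omega
      · rintro ⟨h2, h3⟩
        have hkp : k < p := by omega
        have hk0 : ((k : ZMod p)) ≠ 0 := by
          rw [Ne, ZMod.natCast_eq_zero_iff]
          intro h
          have := Nat.le_of_dvd h2 h
          omega
        rcases legendreSym.eq_one_or_neg_one p (a := (k : ℤ)) (by exact_mod_cast hk0) with h | h
        · right; exact ⟨hkp, h2, by omega, h⟩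
        · left; exact ⟨hkp, h2, by omega, h⟩
    rw [h2]
    simp
  · rw [Finset.disjoint_left]
    intro k hk hk'
    rw [mem_filter] at hk hk'
    rw [hk.2.2.2] at hk'
    exact absurd hk'.2.2.2 (by norm_num)

lemma not_dvd (h : p % 24 = 1 ∨ p % 24 = 7) (r : ℕ) : 12 * r ≠ p ∧ 12 * r ≠ 11 * p := by
  constructor <;> rcases h with h | h <;> omega

/-- **Main result.**  The answer to Q1.  Here `K` is any number field of degree two with a square
root of `-p`, that is `ℚ(√-p)`. -/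
theorem result : ∀ (p : ℕ) [Fact p.Prime] (K : Type) [Field K] [NumberField K],
    Module.finrank ℚ K = 2 → (∃ s : K, s ^ 2 = -(p : K)) →
    (p % 24 = 1 →
      (∃ r : ℝ, 0 < r ∧ T p (NumberField.classNumber K) 1 = r) ∧
      (∃ r : ℝ, 0 < r ∧ T p (NumberField.classNumber K) (-1) = r)) ∧
    (p % 24 = 7 →
      (∃ r : ℝ, 0 < r ∧ T p (NumberField.classNumber K) 1 = r) ∧
      (∃ r : ℝ, 0 < r ∧ -T p (NumberField.classNumber K) (-1) = r)) := by
  intro p _ K _ _ hK ⟨s, hs⟩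
  have hpp : p.Prime := Fact.out
  have hp0 : (0 : ℝ) < p := by exact_mod_cast hpp.pos
  -- the two points
  have hS : ∀ (hp : p ≠ 2) (ε : ℤ), S p (exp (2 * (Real.pi : ℂ) * I * ε / 12))
      = Pool.Agent.Q23.SP.S p (exp (((Real.pi * ε / 6 : ℝ) : ℂ) * I)) := by
    intro hp ε
    rw [S, Pool.Agent.Q23.SP.S_eq hp]
    congr 2
    push_cast
    ring
  have hpos1 : ∀ (h24 : p % 24 = 1 ∨ p % 24 = 7), ∀ r ∈ Pool.Agent.Q23.SP.QR p, 12 * r.val < p →
      0 < Real.sin ((Real.pi * (1 : ℤ) / 6 - 2 * Real.pi * r.val / p) / 2) := by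
    intro h24 r hr h
    have h' : 12 * (r.val : ℝ) < p := by exact_mod_cast h
    have hr0 : (0 : ℝ) ≤ r.val := by positivity
    have hpi := Real.pi_pos
    have e : (Real.pi * ((1 : ℤ) : ℝ) / 6 - 2 * Real.pi * r.val / p) / 2
        = Real.pi * (1 / 12 - r.val / p) := by push_cast; ring
    rw [e]
    have h3 : (r.val : ℝ) / p < 1 / 12 := by rw [div_lt_iff₀ hp0]; linarith
    have h4 : 0 ≤ (r.val : ℝ) / p := by positivity
    apply Real.sin_pos_of_pos_of_lt_pi
    · apply mul_pos hpi; linarith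
    · nlinarith
  have hneg1 : ∀ (h24 : p % 24 = 1 ∨ p % 24 = 7), ∀ r ∈ Pool.Agent.Q23.SP.QR p, ¬ 12 * r.val < p →
      Real.sin ((Real.pi * (1 : ℤ) / 6 - 2 * Real.pi * r.val / p) / 2) < 0 := by
    intro h24 r hr h
    have h1 : p < 12 * r.val := by
      have := (not_dvd h24 r.val).1
      omega
    have h' : (p : ℝ) < 12 * (r.val : ℝ) := by exact_mod_cast h1
    have hlt : (r.val : ℝ) < p := by exact_mod_cast ZMod.val_lt r
    have hpi := Real.pi_pos
    have e : (Real.pi * ((1 : ℤ) : ℝ) / 6 - 2 * Real.pi * r.val / p) / 2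
        = Real.pi * (1 / 12 - r.val / p) := by push_cast; ring
    rw [e]
    have h3 : 1 / 12 < (r.val : ℝ) / p := by rw [lt_div_iff₀ hp0]; linarith
    have h4 : (r.val : ℝ) / p < 1 := by rw [div_lt_one hp0]; exact hlt
    apply Real.sin_neg_of_neg_of_neg_pi_lt
    · nlinarith
    · nlinarith
  have hpos2 : ∀ (h24 : p % 24 = 1 ∨ p % 24 = 7), ∀ r ∈ Pool.Agent.Q23.SP.QR p, 11 * p < 12 * r.val →
      0 < Real.sin ((Real.pi * (-1 : ℤ) / 6 - 2 * Real.pi * r.val / p) / 2) := by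
    intro h24 r hr h
    have h' : 11 * (p : ℝ) < 12 * (r.val : ℝ) := by exact_mod_cast h
    have hlt : (r.val : ℝ) < p := by exact_mod_cast ZMod.val_lt r
    have hpi := Real.pi_pos
    have e : (Real.pi * ((-1 : ℤ) : ℝ) / 6 - 2 * Real.pi * r.val / p) / 2
        = Real.pi * (2 - 1 / 12 - r.val / p) - 2 * Real.pi := by push_cast; ring
    rw [e, Real.sin_sub_two_pi]
    have h3 : 11 / 12 < (r.val : ℝ) / p := by rw [lt_div_iff₀ hp0]; linarith
    have h4 : (r.val : ℝ) / p < 1 := by rw [div_lt_one hp0]; exact hlt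
    apply Real.sin_pos_of_pos_of_lt_pi
    · nlinarith
    · nlinarith
  have hneg2 : ∀ (h24 : p % 24 = 1 ∨ p % 24 = 7), ∀ r ∈ Pool.Agent.Q23.SP.QR p,
      ¬ 11 * p < 12 * r.val →
      Real.sin ((Real.pi * (-1 : ℤ) / 6 - 2 * Real.pi * r.val / p) / 2) < 0 := by
    intro h24 r hr h
    have h1 : 12 * r.val < 11 * p := by
      have := (not_dvd h24 r.val).2
      omega
    have h' : 12 * (r.val : ℝ) < 11 * p := by exact_mod_cast h1
    have hr0 : (0 : ℝ) ≤ r.val := by positivity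
    have hpi := Real.pi_pos
    have e : (Real.pi * ((-1 : ℤ) : ℝ) / 6 - 2 * Real.pi * r.val / p) / 2
        = Real.pi * (-1 / 12 - r.val / p) := by push_cast; ring
    rw [e]
    have h3 : (r.val : ℝ) / p < 11 / 12 := by rw [div_lt_iff₀ hp0]; linarith
    have h4 : 0 ≤ (r.val : ℝ) / p := by positivity
    apply Real.sin_neg_of_neg_of_neg_pi_lt
    · nlinarith
    · nlinarith
  set h := NumberField.classNumber K with hh
  have hm11 : ∀ k : ℕ, ((-1 : ℂ)) ^ k * (-1) ^ k = 1 := by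
    intro k; rw [← mul_pow]; simp
  refine ⟨fun h24 => ?_, fun h24 => ?_⟩
  · -- p = 1 mod 24
    have hp2 : p ≠ 2 := by rintro rfl; omega
    have h4 : p % 4 = 1 := by omega
    have hfour := Pool.Agent.Q23.CN.four_dvd_class p (by omega) hK s hs
    rw [← hh] at hfour
    have heven : Even (h / 2) := by
      obtain ⟨q, hq⟩ := hfour
      exact ⟨q, by omega⟩
    obtain ⟨t, ht⟩ : ∃ t : ℕ, p = 24 * t + 1 := ⟨p / 24, by omega⟩
    have hn : (p - 1) / 2 = 12 * t := by omega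
    obtain ⟨c, hc, hSc⟩ := Pool.Agent.Q23.TW.S_phase hp2 (Real.pi * (1 : ℤ) / 6)
      (fun r => 12 * r.val < p) 0 (Pool.Agent.Q23.TW.sum_QR_one h4) (hpos1 (Or.inl h24))
      (hneg1 (Or.inl h24))
    obtain ⟨c', hc', hSc'⟩ := Pool.Agent.Q23.TW.S_phase hp2 (Real.pi * (-1 : ℤ) / 6)
      (fun r => 11 * p < 12 * r.val) 0 (Pool.Agent.Q23.TW.sum_QR_one h4) (hpos2 (Or.inl h24))
      (hneg2 (Or.inl h24))
    rw [N_eq, hn] at hSc
    rw [N_neg_one h4, hn] at hSc'
    have hpc : (p : ℂ) = 24 * t + 1 := by rw [ht]; push_cast; ring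
    refine ⟨⟨c, hc, ?_⟩, ⟨c', hc', ?_⟩⟩
    · rw [T, hS hp2, hSc, pow_add, heven.neg_one_pow]
      have e1 : exp (2 * (Real.pi : ℂ) * I * ((1 : ℤ) : ℂ) * ((p : ℂ) - 1) / 48)
          * (exp (((Real.pi * (1 : ℤ) / 6 * (12 * t : ℕ) / 2 : ℝ) : ℂ) * I)
          * exp (((-(Real.pi * (0 : ℤ) / 2) : ℝ) : ℂ) * I)) = 1 := by
        rw [← exp_add, ← exp_add]
        have : 2 * (Real.pi : ℂ) * I * ((1 : ℤ) : ℂ) * ((p : ℂ) - 1) / 48
          + (((Real.pi * (1 : ℤ) / 6 * (12 * t : ℕ) / 2 : ℝ) : ℂ) * I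
          + ((-(Real.pi * (0 : ℤ) / 2) : ℝ) : ℂ) * I) = (t : ℤ) * (2 * Real.pi * I) := by
          rw [hpc]; push_cast; ring
        rw [this, exp_int_mul_two_pi_mul_I]
      linear_combination ((-1) ^ N p * (-1) ^ N p * (c : ℂ)) * e1 + (c : ℂ) * hm11 (N p)
    · rw [T, hS hp2, hSc', pow_add, heven.neg_one_pow]
      have e1 : exp (2 * (Real.pi : ℂ) * I * ((-1 : ℤ) : ℂ) * ((p : ℂ) - 1) / 48)
          * (exp (((Real.pi * (-1 : ℤ) / 6 * (12 * t : ℕ) / 2 : ℝ) : ℂ) * I)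
          * exp (((-(Real.pi * (0 : ℤ) / 2) : ℝ) : ℂ) * I)) = 1 := by
        rw [← exp_add, ← exp_add]
        have : 2 * (Real.pi : ℂ) * I * ((-1 : ℤ) : ℂ) * ((p : ℂ) - 1) / 48
          + (((Real.pi * (-1 : ℤ) / 6 * (12 * t : ℕ) / 2 : ℝ) : ℂ) * I
          + ((-(Real.pi * (0 : ℤ) / 2) : ℝ) : ℂ) * I) = ((-t : ℤ) : ℂ) * (2 * Real.pi * I) := by
          rw [hpc]; push_cast; ring
        rw [this, exp_int_mul_two_pi_mul_I]
      linear_combination ((-1) ^ N p * (-1) ^ N p * (c' : ℂ)) * e1 + (c' : ℂ) * hm11 (N p)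
  · -- p = 7 mod 24
    have hp2 : p ≠ 2 := by rintro rfl; omega
    have h4 : p % 4 = 3 := by omega
    have h7 : 7 ≤ p := by omega
    obtain ⟨n', hn'⟩ : ∃ n', p = 2 * n' + 1 := ⟨p / 2, by omega⟩
    obtain ⟨m, hm⟩ := (Pool.Agent.Q23.CN.odd_class hn' h4 h7 K hK s hs).1
    rw [← hh] at hm
    have hm2 : h / 2 = m := by omega
    obtain ⟨t, ht⟩ : ∃ t : ℕ, p = 24 * t + 7 := ⟨p / 24, by omega⟩
    have hn : (p - 1) / 2 = 12 * t + 3 := by omega
    have hpc : (p : ℂ) = 24 * t + 7 := by rw [ht]; push_cast; ring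
    have hsum := Pool.Agent.Q23.TW.sum_QR_three h4 (by omega) K hK s hs
    rw [← hh] at hsum
    obtain ⟨c, hc, hSc⟩ := Pool.Agent.Q23.TW.S_phase hp2 (Real.pi * (1 : ℤ) / 6)
      (fun r => 12 * r.val < p) (h : ℤ) hsum (hpos1 (Or.inr h24)) (hneg1 (Or.inr h24))
    obtain ⟨c', hc', hSc'⟩ := Pool.Agent.Q23.TW.S_phase hp2 (Real.pi * (-1 : ℤ) / 6)
      (fun r => 11 * p < 12 * r.val) (h : ℤ) hsum (hpos2 (Or.inr h24)) (hneg2 (Or.inr h24))
    have hcount := N_neg_three (p := p) h4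
    set N' := ((Pool.Agent.Q23.SP.QR p).filter (fun r => 11 * p < 12 * r.val)).card with hN'
    rw [N_eq, hn] at hSc
    rw [hn] at hSc'
    have hNN : N' + N p = 2 * t := by omega
    have hNN' : (-1 : ℂ) ^ N' * (-1) ^ N p = 1 := by
      rw [← pow_add, hNN, pow_mul]; simp
    refine ⟨⟨c, hc, ?_⟩, ⟨c', hc', ?_⟩⟩
    · rw [T, hS hp2, hSc, pow_add, hm2]
      have e1 : exp (2 * (Real.pi : ℂ) * I * ((1 : ℤ) : ℂ) * ((p : ℂ) - 1) / 48)
          * (exp (((Real.pi * (1 : ℤ) / 6 * (12 * t + 3 : ℕ) / 2 : ℝ) : ℂ) * I)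
          * exp (((-(Real.pi * (h : ℤ) / 2) : ℝ) : ℂ) * I)) = (-1) ^ m := by
        rw [← exp_add, ← exp_add]
        have : 2 * (Real.pi : ℂ) * I * ((1 : ℤ) : ℂ) * ((p : ℂ) - 1) / 48
          + (((Real.pi * (1 : ℤ) / 6 * (12 * t + 3 : ℕ) / 2 : ℝ) : ℂ) * I
          + ((-(Real.pi * (h : ℤ) / 2) : ℝ) : ℂ) * I)
          = ((t - m : ℤ) : ℂ) * (2 * Real.pi * I) + (m : ℂ) * (Real.pi * I) := by
          rw [hpc, hm]; push_cast; ring
        rw [this, exp_add, exp_int_mul_two_pi_mul_I, exp_nat_mul, exp_pi_mul_I, one_mul]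
      linear_combination ((-1) ^ m * (-1) ^ N p * (-1) ^ N p * (c : ℂ)) * e1
        + (c : ℂ) * (-1) ^ N p * (-1) ^ N p * hm11 m + (c : ℂ) * hm11 (N p)
    · rw [T, hS hp2, hSc', pow_add, hm2]
      have e1 : exp (2 * (Real.pi : ℂ) * I * ((-1 : ℤ) : ℂ) * ((p : ℂ) - 1) / 48)
          * (exp (((Real.pi * (-1 : ℤ) / 6 * (12 * t + 3 : ℕ) / 2 : ℝ) : ℂ) * I)
          * exp (((-(Real.pi * (h : ℤ) / 2) : ℝ) : ℂ) * I)) = - (-1) ^ m := by
        rw [← exp_add, ← exp_add]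
        have : 2 * (Real.pi : ℂ) * I * ((-1 : ℤ) : ℂ) * ((p : ℂ) - 1) / 48
          + (((Real.pi * (-1 : ℤ) / 6 * (12 * t + 3 : ℕ) / 2 : ℝ) : ℂ) * I
          + ((-(Real.pi * (h : ℤ) / 2) : ℝ) : ℂ) * I)
          = ((-t - m - 1 : ℤ) : ℂ) * (2 * Real.pi * I) + ((m + 1 : ℕ) : ℂ) * (Real.pi * I) := by
          rw [hpc, hm]; push_cast; ring
        rw [this, exp_add, exp_int_mul_two_pi_mul_I, exp_nat_mul, exp_pi_mul_I, one_mul, pow_succ]
        ring
      linear_combination (-(-1) ^ m * (-1) ^ N p * (-1) ^ N' * (c' : ℂ)) * e1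
        + (c' : ℂ) * (-1) ^ N p * (-1) ^ N' * hm11 m + (c' : ℂ) * hNN'

end Pool.Agent.Results.MP_de9ce4_nt.SignsProved
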